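import Pool.Agent.Helper31.RG.Goals

set_option autoImplicit false

namespace Pool.Agent.Helper49.RG.PkPROD

open Pool.Agent.Helper31.RG
open Pool.Agent.Helper65.LinSpace Pool.Agent.Helper78 Pool.Agent.Helper78.Mpc
  Pool.Agent.Helper78.Xor Pool.Agent.Helper95.BG Finset

theorem orB_single {q C : ℕ} (f : ℕ → ℕ) (h : f C < 2 ^ q) : orB q C (C + 1) f = f C := by
  refine ext_bits (orB_lt _ _ _ _) h fun t ht => ?_
  rw [dig_orB]
  constructor
  · rintro ⟨_, k, h1, h2, h3⟩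
    have : k = C := by omega
    rw [this] at h3
    exact h3
  · intro h1
    exact ⟨ht, C, le_rfl, Nat.lt_succ_self _, h1⟩

theorem thm (hG : G_GEO) (hL : G_LIFT) : G_PROD := by
  intro q k r b M lt bt W φ Z C hk hb hM hbt hW hφ
  obtain ⟨_, _, hc, hd, he, _, _⟩ := hL k r b M hk hb hM
  have hN : 0 < M * b := Nat.mul_pos hM hb
  unfold prodZ Helper31.RG.ST
  refine tab_congr fun x _ => ifz_congr (fun h1 => ?_) fun _ => rfl
  rw [lt01_eq_zero] at h1
  rw [orB_single _ (orB_lt _ _ _ _)]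
  refine orB_congr fun o _ _ => ifz_congr (fun _ => rfl) fun h2 => ?_
  refine trm_congr fun h3 π _ h4 _ => ?_
  obtain ⟨_, g2, _⟩ := hG k r b (M * b) (lft k b M Z (2 * k) x) (cutN b M (k * r) C o) hN h3
  have h5 := g2 π h4 h2
  have h6 : dig (2 ^ ((2 * k * b) ^ (2 * k) * q))
      (tab (2 ^ ((2 * k * b) ^ (2 * k) * q)) ((2 * k + k * r) ^ (2 * k))
        fun i => ZT q k b M W (φ - 1) (subZ k r M Z C i)) (chi k r b x π) =
      ZT q k b M W (φ - 1) (subZ k r M Z C (chi k r b x π)) :=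
    dig_tab (fun i _ => ZT_lt hW _ _) (hd x π)
  simp only [h6]
  rw [dig_ZT hW _ _ (he _ _ _ _), hc, if_neg (by omega)]

end Pool.Agent.Helper49.RG.PkPROD
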